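import Mathlib

namespace Pool.Agent.Lib.MP_0430e4_lc.Dihedral

open AddMonoidAlgebra

variable {N : ℕ}

/-- The group ring of the cyclic group of order `N` over the field with two elements. -/
abbrev R (N : ℕ) := AddMonoidAlgebra (ZMod 2) (ZMod N)

instance instCharR : CharP (R N) 2 :=
  charP_of_injective_algebraMap (FaithfulSMul.algebraMap_injective (ZMod 2) (R N)) 2

/-- The generator. -/
noncomputable def X (N : ℕ) : R N := single 1 1

/-- The element `x + 1`. -/
noncomputable def Y (N : ℕ) : R N := X N + 1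

/-- The involution `x ↦ x⁻¹`. -/
noncomputable def bar (N : ℕ) : R N →+* R N :=
  mapDomainRingHom (ZMod 2) (-AddMonoidHom.id (ZMod N))

theorem two_eq_zero (a : R N) : a + a = 0 := CharTwo.add_self_eq_zero a

theorem coeff_bar (a : R N) (i : ZMod N) : (bar N a).coeff i = a.coeff (-i) := by
  have h : Function.Injective (-AddMonoidHom.id (ZMod N)) := by
    intro u v huv
    simpa using huv
  have := Finsupp.mapDomain_apply h a.coeff (-i)
  simpa [bar, mapDomainRingHom] using this

theorem bar_bar (a : R N) : bar N (bar N a) = a := by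
  apply coeff_injective
  ext i
  rw [coeff_bar, coeff_bar, neg_neg]

theorem X_pow (N k : ℕ) : (X N) ^ k = single (k : ZMod N) 1 := by
  rw [X, single_pow]
  simp

theorem coeff_X_pow_mul (k : ℕ) (a : R N) (i : ZMod N) :
    ((X N) ^ k * a).coeff i = a.coeff (i - k) := by
  rw [X_pow, coeff_single_mul_apply]
  simp [neg_add_eq_sub]

theorem Y_pow (N t : ℕ) : (Y N) ^ (2 ^ t) = (X N) ^ (2 ^ t) + 1 := by
  rw [Y, add_pow_char_pow, one_pow]

/-- Augmentation. -/
noncomputable def aug (N : ℕ) : R N →ₐ[ZMod 2] ZMod 2 := lift (ZMod 2) (ZMod 2) (ZMod N) 1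

theorem aug_single (i : ZMod N) (c : ZMod 2) : aug N (single i c) = c := by
  simp [aug]

theorem aug_X (N : ℕ) : aug N (X N) = 1 := aug_single _ _

theorem zmod2_pow (c : ZMod 2) (s : ℕ) : c ^ (2 ^ s) = c := by
  have : c = 0 ∨ c = 1 := by
    revert c; decide
  rcases this with rfl | rfl
  · exact zero_pow (by positivity)
  · exact one_pow _

theorem frob (s : ℕ) (a : R (2 ^ s)) :
    a ^ (2 ^ s) = algebraMap (ZMod 2) (R (2 ^ s)) (aug (2 ^ s) a) := by
  have h : iterateFrobenius (R (2 ^ s)) 2 s =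
      (algebraMap (ZMod 2) (R (2 ^ s))).comp (aug (2 ^ s) : R (2 ^ s) →+* ZMod 2) := by
    apply ringHom_ext
    · intro r
      simp only [iterateFrobenius_def, RingHom.comp_apply]
      rw [single_pow, zmod2_pow, smul_zero]
      simp only [RingHom.coe_coe, aug_single]
      simp
    · intro m
      simp only [iterateFrobenius_def, RingHom.comp_apply]
      rw [single_pow, one_pow]
      simp only [RingHom.coe_coe, aug_single]
      have h1 : (2 ^ s) • m = 0 := by
        rw [nsmul_eq_mul, ZMod.natCast_self, zero_mul]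
      rw [h1]
      simp
  have := congrArg (fun f => f a) h
  simpa [iterateFrobenius_def] using this

theorem Y_pow_self (s : ℕ) : (Y (2 ^ s)) ^ (2 ^ s) = 0 := by
  rw [frob, Y, map_add, aug_X, map_one]
  have : (1 : ZMod 2) + 1 = 0 := by decide
  rw [this, map_zero]

theorem isUnit_of_aug {s : ℕ} {a : R (2 ^ s)} (h : aug (2 ^ s) a = 1) : IsUnit a := by
  have h1 := frob s a
  rw [h, map_one] at h1
  exact IsUnit.of_pow_eq_one h1 (by positivity)

theorem aug_bar (a : R N) : aug N (bar N a) = aug N a := by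
  have h : (aug N : R N →+* ZMod 2).comp (bar N) = (aug N : R N →+* ZMod 2) := by
    apply ringHom_ext
    · intro r
      simp [bar, aug]
    · intro m
      simp [bar, aug]
  exact congrArg (fun f => f a) h

/-- Words killed by `(x+1)^(2^t)` are `2^t`-periodic. -/
theorem periodic {t : ℕ} {c : R N} (h : (Y N) ^ (2 ^ t) * c = 0) (i : ZMod N) :
    c.coeff (i + (2 ^ t : ℕ)) = c.coeff i := by
  rw [Y_pow, add_mul, one_mul] at h
  have h1 := congrArg (fun z : R N => z.coeff (i + (2 ^ t : ℕ))) h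
  simp only [coeff_add, Finsupp.add_apply] at h1
  rw [coeff_X_pow_mul, add_sub_cancel_right] at h1
  simp only [coeff_zero, Finsupp.coe_zero, Pi.zero_apply] at h1
  have h2 : ∀ u v : ZMod 2, u + v = 0 → v = u := by decide
  exact h2 _ _ h1

/-- A non-zero polynomial of degree at most `m` does not kill an element not killed by
`(x+1)^m`. -/
theorem mul_aeval_ne_zero {s m : ℕ} {r : R (2 ^ s)} (hr : (Y (2 ^ s)) ^ m * r ≠ 0)
    {p : Polynomial (ZMod 2)} (hp : p ≠ 0) (hdeg : p.natDegree ≤ m) :
    r * Polynomial.aeval (X (2 ^ s)) p ≠ 0 := by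
  intro h0
  obtain ⟨q, hq, hnd⟩ := Polynomial.exists_eq_pow_rootMultiplicity_mul_and_not_dvd p hp 1
  set e := p.rootMultiplicity 1 with he
  have hq1 : q.eval 1 = 1 := by
    rw [Polynomial.dvd_iff_isRoot, Polynomial.IsRoot.def] at hnd
    have : ∀ c : ZMod 2, c ≠ 0 → c = 1 := by decide
    exact this _ hnd
  have hunit : IsUnit (Polynomial.aeval (X (2 ^ s)) q) := by
    apply isUnit_of_aug
    rw [← Polynomial.aeval_algHom_apply, aug_X, Polynomial.coe_aeval_eq_eval, hq1]
  have hXY : (X (2 ^ s)) - 1 = Y (2 ^ s) := by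
    rw [Y, CharTwo.sub_eq_add]
  rw [hq, map_mul, map_pow, map_sub, Polynomial.aeval_X, map_one, map_one, hXY, ← mul_assoc] at h0
  have h1 : r * (Y (2 ^ s)) ^ e = 0 := by
    exact (hunit.mul_left_eq_zero).mp h0
  have hle : e ≤ m := by
    have hq0 : q ≠ 0 := by
      rintro rfl
      simp at hq1
    have h2 : p.natDegree = e + q.natDegree := by
      conv_lhs => rw [hq]
      rw [Polynomial.natDegree_mul (pow_ne_zero _ (Polynomial.X_sub_C_ne_zero 1)) hq0,
        Polynomial.natDegree_pow, Polynomial.natDegree_X_sub_C, mul_one]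
    omega
  apply hr
  obtain ⟨d, rfl⟩ := Nat.exists_eq_add_of_le hle
  rw [pow_add, mul_comm, ← mul_assoc, h1, zero_mul]


/-- The polynomial attached to a vector of coefficients. -/
noncomputable def P (K : ℕ) (u : Fin K → ZMod 2) : Polynomial (ZMod 2) :=
  ∑ j : Fin K, Polynomial.C (u j) * (Polynomial.X ^ (K + (j + 1)) + Polynomial.X ^ (K - (j + 1)))

theorem natDegree_P (K : ℕ) (u : Fin K → ZMod 2) : (P K u).natDegree ≤ 2 * K := by
  apply Polynomial.natDegree_sum_le_of_forall_le
  intro j _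
  refine (Polynomial.natDegree_C_mul_le _ _).trans ?_
  refine (Polynomial.natDegree_add_le _ _).trans ?_
  rw [Polynomial.natDegree_X_pow, Polynomial.natDegree_X_pow]
  have := j.2
  omega

theorem coeff_P (K : ℕ) (u : Fin K → ZMod 2) (j : Fin K) : (P K u).coeff (K + (j + 1)) = u j := by
  rw [P, Polynomial.finsetSum_coeff]
  rw [Finset.sum_eq_single j]
  · rw [Polynomial.coeff_C_mul, Polynomial.coeff_add, Polynomial.coeff_X_pow, Polynomial.coeff_X_pow]
    have h1 : ¬ (K + ((j : ℕ) + 1) = K - ((j : ℕ) + 1)) := by omega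
    simp [h1]
  · intro i _ hij
    rw [Polynomial.coeff_C_mul, Polynomial.coeff_add, Polynomial.coeff_X_pow, Polynomial.coeff_X_pow]
    have h1 : ¬ (K + ((j : ℕ) + 1) = K - ((i : ℕ) + 1)) := by omega
    have h2 : ¬ ((j : ℕ) = (i : ℕ)) := by
      intro h
      apply hij
      apply Fin.ext
      omega
    simp [h1, h2]
  · intro h
    exact absurd (Finset.mem_univ _) h

theorem P_ne_zero {K : ℕ} {u : Fin K → ZMod 2} (hu : u ≠ 0) : P K u ≠ 0 := by
  intro h
  apply hu
  funext j
  rw [← coeff_P K u j, h]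
  simp

/-- The word attached to a vector of coefficients. -/
noncomputable def W (N K : ℕ) (u : Fin K → ZMod 2) : R N :=
  ∑ j : Fin K, algebraMap (ZMod 2) (R N) (u j) * (X N) ^ ((j : ℕ) + 1)

theorem W_add (N K : ℕ) (u v : Fin K → ZMod 2) : W N K (u + v) = W N K u + W N K v := by
  rw [W, W, W, ← Finset.sum_add_distrib]
  refine Finset.sum_congr rfl ?_
  intro j _
  rw [Pi.add_apply, map_add, add_mul]

theorem bar_algebraMap (c : ZMod 2) : bar N (algebraMap (ZMod 2) (R N) c) = algebraMap (ZMod 2) (R N) c := by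
  simp [bar]

theorem X_mul_bar (N : ℕ) : X N * bar N (X N) = 1 := by
  have h : bar N (X N) = single (-1) 1 := by
    simp [bar, X]
  rw [h, X, single_mul_single]
  simp [one_def]

theorem X_pow_mul_bar (K j : ℕ) (h : j ≤ K) : (X N) ^ K * bar N ((X N) ^ j) = (X N) ^ (K - j) := by
  obtain ⟨d, rfl⟩ := Nat.exists_eq_add_of_le h
  rw [Nat.add_sub_cancel_left, map_pow, add_comm, pow_add, mul_assoc, ← mul_pow, X_mul_bar,
    one_pow, mul_one]

theorem X_pow_mul_W (N K : ℕ) (u : Fin K → ZMod 2) :
    (X N) ^ K * (W N K u + bar N (W N K u)) = Polynomial.aeval (X N) (P K u) := by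
  rw [W, P, map_sum, map_sum, ← Finset.sum_add_distrib, Finset.mul_sum]
  refine Finset.sum_congr rfl ?_
  intro j _
  have h1 : bar N (algebraMap (ZMod 2) (R N) (u j) * (X N) ^ ((j : ℕ) + 1)) =
      algebraMap (ZMod 2) (R N) (u j) * bar N ((X N) ^ ((j : ℕ) + 1)) := by
    rw [map_mul, bar_algebraMap]
  rw [h1, ← mul_add, mul_left_comm, mul_add, ← pow_add, X_pow_mul_bar K ((j : ℕ) + 1) (by omega),
    map_mul, map_add, Polynomial.aeval_C, Polynomial.aeval_X_pow, Polynomial.aeval_X_pow]

theorem isUnit_X (s : ℕ) : IsUnit (X (2 ^ s)) := isUnit_of_aug (aug_X _)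

theorem mul_W_ne_zero {s K : ℕ} {r : R (2 ^ s)} (hr : (Y (2 ^ s)) ^ (2 * K) * r ≠ 0)
    {u : Fin K → ZMod 2} (hu : u ≠ 0) :
    r * (W (2 ^ s) K u + bar (2 ^ s) (W (2 ^ s) K u)) ≠ 0 := by
  intro h
  apply mul_aeval_ne_zero hr (P_ne_zero hu) (natDegree_P K u)
  rw [← X_pow_mul_W, mul_left_comm, h, mul_zero]


/-! ### Counting units compatible with a given word -/

/-- Words as functions. -/
noncomputable def eqv (N : ℕ) [NeZero N] : R N ≃ (ZMod N → ZMod 2) :=
  (coeffEquiv (R := ZMod 2) (M := ZMod N)).trans Finsupp.equivFunOnFinite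

noncomputable instance instFintypeR [NeZero N] : Fintype (R N) := Fintype.ofEquiv _ (eqv N).symm

theorem card_R (N : ℕ) [NeZero N] : Fintype.card (R N) = 2 ^ N := by
  rw [Fintype.card_congr (eqv N), Fintype.card_fun, ZMod.card, ZMod.card]

open Classical in
theorem card_compatible {s K : ℕ} {a r : R (2 ^ s)} (ha : aug (2 ^ s) a = 1)
    (hr : (Y (2 ^ s)) ^ (2 * K) * r ≠ 0) :
    (Finset.univ.filter (fun b : R (2 ^ s) =>
      r * (a * bar (2 ^ s) b + bar (2 ^ s) a * b) = 0)).card * 2 ^ K ≤ 2 ^ (2 ^ s) := by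
  have hua : IsUnit (a * bar (2 ^ s) a) := by
    apply isUnit_of_aug
    rw [map_mul, aug_bar, ha, one_mul]
  have h1 : (Finset.univ.filter (fun b : R (2 ^ s) =>
      r * (a * bar (2 ^ s) b + bar (2 ^ s) a * b) = 0) ×ˢ
        (Finset.univ : Finset (Fin K → ZMod 2))).card ≤ (Finset.univ : Finset (R (2 ^ s))).card := by
    apply Finset.card_le_card_of_injOn (fun z => z.1 + a * W (2 ^ s) K z.2)
    · intro z _
      exact Finset.mem_coe.2 (Finset.mem_univ _)
    · rintro ⟨b, v⟩ hz ⟨b', v'⟩ hz' heq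
      simp only [Finset.coe_product, Finset.coe_filter, Finset.coe_univ, Set.mem_prod,
        Set.mem_ofPred_eq, Set.mem_univ, Finset.mem_univ, true_and, and_true] at hz hz'
      simp only at heq
      have h2 : b + b' = a * W (2 ^ s) K (v + v') := by
        rw [W_add, mul_add]
        have e1 : b + b' + (a * W (2 ^ s) K v + a * W (2 ^ s) K v') = 0 := by
          have : b + b' + (a * W (2 ^ s) K v + a * W (2 ^ s) K v') =
              (b + a * W (2 ^ s) K v) + (b' + a * W (2 ^ s) K v') := by ring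
          rw [this, heq, two_eq_zero]
        calc b + b' = b + b' + ((a * W (2 ^ s) K v + a * W (2 ^ s) K v') +
              (a * W (2 ^ s) K v + a * W (2 ^ s) K v')) := by rw [two_eq_zero, add_zero]
          _ = (b + b' + (a * W (2 ^ s) K v + a * W (2 ^ s) K v')) +
              (a * W (2 ^ s) K v + a * W (2 ^ s) K v') := by ring
          _ = _ := by rw [e1, zero_add]
      have h3 : r * (a * bar (2 ^ s) (b + b') + bar (2 ^ s) a * (b + b')) = 0 := by
        have : r * (a * bar (2 ^ s) (b + b') + bar (2 ^ s) a * (b + b')) =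
            r * (a * bar (2 ^ s) b + bar (2 ^ s) a * b) +
              r * (a * bar (2 ^ s) b' + bar (2 ^ s) a * b') := by
          rw [map_add]; ring
        rw [this, hz, hz', add_zero]
      have h4 : a * bar (2 ^ s) a *
          (r * (W (2 ^ s) K (v + v') + bar (2 ^ s) (W (2 ^ s) K (v + v')))) = 0 := by
        rw [← h3, h2, map_mul]; ring
      have h5 : r * (W (2 ^ s) K (v + v') + bar (2 ^ s) (W (2 ^ s) K (v + v'))) = 0 :=
        (hua.mul_right_eq_zero).mp h4
      have h6 : v + v' = 0 := by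
        by_contra hne
        exact mul_W_ne_zero hr hne h5
      have h7 : v = v' := by
        funext j
        have := congrFun h6 j
        simp only [Pi.add_apply, Pi.zero_apply] at this
        have h8 : ∀ x y : ZMod 2, x + y = 0 → x = y := by decide
        exact h8 _ _ this
      subst h7
      have h9 : b = b' := by simpa using heq
      rw [h9]
  rw [Finset.card_product, Finset.card_univ, Finset.card_univ, card_R, Fintype.card_fun,
    ZMod.card, Fintype.card_fin] at h1
  exact h1

open Classical in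
/-- The number of units for which a given pair of words lies in the code. -/
theorem card_units {s K : ℕ} (c : R (2 ^ s) × R (2 ^ s)) :
    (Finset.univ.filter (fun b : R (2 ^ s) => aug (2 ^ s) b = 1 ∧
      ∃ r : R (2 ^ s), (Y (2 ^ s)) ^ (2 * K) * r ≠ 0 ∧ c = (r * bar (2 ^ s) b, r * b))).card *
      2 ^ K ≤ 2 ^ (2 ^ s) := by
  by_cases hne : ∃ a : R (2 ^ s), aug (2 ^ s) a = 1 ∧
      ∃ r : R (2 ^ s), (Y (2 ^ s)) ^ (2 * K) * r ≠ 0 ∧ c = (r * bar (2 ^ s) a, r * a)
  · obtain ⟨a, ha, r, hr, hc⟩ := hne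
    refine le_trans (Nat.mul_le_mul_right _ (Finset.card_le_card ?_)) (card_compatible ha hr)
    intro b hb
    simp only [Finset.mem_filter, Finset.mem_univ, true_and] at hb ⊢
    obtain ⟨hb1, r', _, hc'⟩ := hb
    rw [hc, Prod.mk.injEq] at hc'
    obtain ⟨e1, e2⟩ := hc'
    -- r * bar a = r' * bar b, r * a = r' * b
    have h1 : r * (a * bar (2 ^ s) b) = r * (bar (2 ^ s) a * b) := by
      calc r * (a * bar (2 ^ s) b) = (r * a) * bar (2 ^ s) b := by ring
        _ = (r' * bar (2 ^ s) b) * b := by rw [e2]; ring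
        _ = _ := by rw [← e1]; ring
    rw [mul_add, h1, two_eq_zero]
  · have : (Finset.univ.filter (fun b : R (2 ^ s) => aug (2 ^ s) b = 1 ∧
      ∃ r : R (2 ^ s), (Y (2 ^ s)) ^ (2 * K) * r ≠ 0 ∧ c = (r * bar (2 ^ s) b, r * b))) = ∅ := by
      apply Finset.filter_eq_empty_iff.2
      intro b _ hb
      exact hne ⟨b, hb⟩
    rw [this, Finset.card_empty, zero_mul]
    exact Nat.zero_le _

end Pool.Agent.Lib.MP_0430e4_lc.Dihedral
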