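import Pool.Agent.Lib.MP_0430e4_lc.Dih.Basic

namespace Pool.Agent.Lib.MP_0430e4_lc.Dihedral

open AddMonoidAlgebra

variable {N : ℕ}

open Classical in
/-- The weight of a word. -/
noncomputable def wt [NeZero N] (c : R N) : ℕ :=
  (Finset.univ.filter (fun i : ZMod N => c.coeff i ≠ 0)).card

/-- One period of a word. -/
noncomputable def per (t : ℕ) (c : R N) : Fin (2 ^ t) → ZMod 2 := fun j => c.coeff ((j : ℕ) : ZMod N)

open Classical in
/-- The weight of a vector. -/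
noncomputable def vw {n : ℕ} (v : Fin n → ZMod 2) : ℕ := (Finset.univ.filter (fun j => v j ≠ 0)).card

theorem coeff_period {t : ℕ} {c : R N} (h : (Y N) ^ (2 ^ t) * c = 0) (q j : ℕ) :
    c.coeff ((q * 2 ^ t + j : ℕ) : ZMod N) = c.coeff ((j : ℕ) : ZMod N) := by
  induction q with
  | zero => simp
  | succ q ih =>
    have h1 := periodic h ((q * 2 ^ t + j : ℕ) : ZMod N)
    rw [ih] at h1
    rw [← h1]
    congr 1
    push_cast
    ring

theorem per_injective {t : ℕ} [NeZero N] {c c' : R N} (h : (Y N) ^ (2 ^ t) * c = 0)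
    (h' : (Y N) ^ (2 ^ t) * c' = 0) (heq : per t c = per t c') : c = c' := by
  apply coeff_injective
  ext i
  have hi : i = ((i.val / 2 ^ t * 2 ^ t + i.val % 2 ^ t : ℕ) : ZMod N) := by
    rw [Nat.div_add_mod', ZMod.natCast_zmod_val]
  rw [hi, coeff_period h, coeff_period h']
  exact congrFun heq ⟨i.val % 2 ^ t, Nat.mod_lt _ (by positivity)⟩

open Classical in
theorem vw_per_le {s t : ℕ} (hts : t ≤ s) {c : R (2 ^ s)} (h : (Y (2 ^ s)) ^ (2 ^ t) * c = 0) :
    2 ^ (s - t) * vw (per t c) ≤ wt c := by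
  have h1 : ((Finset.univ : Finset (Fin (2 ^ (s - t)))) ×ˢ
      (Finset.univ.filter (fun j => per t c j ≠ 0))).card ≤
      (Finset.univ.filter (fun i : ZMod (2 ^ s) => c.coeff i ≠ 0)).card := by
    apply Finset.card_le_card_of_injOn
      (fun z => (((z.1 : ℕ) * 2 ^ t + (z.2 : ℕ) : ℕ) : ZMod (2 ^ s)))
    · rintro ⟨q, j⟩ hz
      simp only [Finset.coe_product, Finset.coe_univ, Finset.coe_filter, Set.mem_prod,
        Set.mem_univ, Set.mem_ofPred_eq, Finset.mem_univ, true_and] at hz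
      simp only [Finset.coe_filter, Finset.mem_univ, true_and, Set.mem_ofPred_eq]
      rw [coeff_period h]
      exact hz
    · rintro ⟨q, j⟩ _ ⟨q', j'⟩ _ heq
      simp only at heq
      have hlt : ∀ (q : Fin (2 ^ (s - t))) (j : Fin (2 ^ t)), (q : ℕ) * 2 ^ t + (j : ℕ) < 2 ^ s := by
        intro q j
        have hq := q.2
        have hj := j.2
        calc (q : ℕ) * 2 ^ t + (j : ℕ) < (q : ℕ) * 2 ^ t + 2 ^ t := by omega
          _ = ((q : ℕ) + 1) * 2 ^ t := by ring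
          _ ≤ 2 ^ (s - t) * 2 ^ t := Nat.mul_le_mul_right _ hq
          _ = 2 ^ s := by rw [← pow_add, Nat.sub_add_cancel hts]
      have h2 := congrArg ZMod.val heq
      rw [ZMod.val_natCast_of_lt (hlt q j), ZMod.val_natCast_of_lt (hlt q' j')] at h2
      have h3 : (q : ℕ) = q' := by
        have : ((q : ℕ) * 2 ^ t + j) / 2 ^ t = ((q' : ℕ) * 2 ^ t + j') / 2 ^ t := by rw [h2]
        rw [Nat.add_comm, Nat.add_mul_div_right _ _ (by positivity),
          Nat.div_eq_of_lt j.2, Nat.add_comm ((q' : ℕ) * 2 ^ t), Nat.add_mul_div_right _ _ (by positivity),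
          Nat.div_eq_of_lt j'.2] at this
        omega
      have h4 : (j : ℕ) = j' := by
        rw [h3] at h2
        omega
      rw [Prod.mk.injEq]
      exact ⟨Fin.ext h3, Fin.ext h4⟩
  rw [Finset.card_product, Finset.card_univ, Fintype.card_fin] at h1
  exact h1

theorem vw_pos {n : ℕ} {v : Fin n → ZMod 2} (hv : v ≠ 0) : 0 < vw v := by
  classical
  obtain ⟨j, hj⟩ := Function.ne_iff.1 hv
  exact Finset.card_pos.2 ⟨j, Finset.mem_filter.2 ⟨Finset.mem_univ _, hj⟩⟩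

theorem sum_pow_vw (n : ℕ) (x : ℝ) : ∑ v : Fin n → ZMod 2, x ^ vw v = (1 + x) ^ n := by
  classical
  have h1 : ∀ v : Fin n → ZMod 2, x ^ vw v = ∏ j, (if v j ≠ 0 then x else 1) := by
    intro v
    rw [Finset.prod_ite, Finset.prod_const, Finset.prod_const_one, mul_one]
    rfl
  simp only [h1]
  have h2 := Finset.prod_univ_sum (fun _ : Fin n => (Finset.univ : Finset (ZMod 2)))
    (fun _ c => if c ≠ 0 then x else (1 : ℝ))
  rw [Fintype.piFinset_univ] at h2
  rw [← h2]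
  have h3 : ∑ c : ZMod 2, (if c ≠ 0 then x else (1 : ℝ)) = 1 + x := by
    have : (Finset.univ : Finset (ZMod 2)) = {0, 1} := by decide
    rw [this, Finset.sum_insert (by decide), Finset.sum_singleton]
    simp
  rw [h3, Finset.prod_const, Finset.card_univ, Fintype.card_fin]

open Classical in
/-- The number of pairs of vectors of small weight. -/
theorem card_low (n k : ℕ) :
    ((Finset.univ.filter (fun v : (Fin n → ZMod 2) × (Fin n → ZMod 2) =>
      vw v.1 + vw v.2 ≤ k)).card : ℝ) ≤ (65 / 64 : ℝ) ^ (2 * n) * 64 ^ k := by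
  have h1 : ∑ v : (Fin n → ZMod 2) × (Fin n → ZMod 2), ((1 / 64 : ℝ)) ^ (vw v.1 + vw v.2) =
      (65 / 64 : ℝ) ^ (2 * n) := by
    rw [Fintype.sum_prod_type]
    simp only [pow_add]
    simp only [← Finset.mul_sum, ← Finset.sum_mul]
    rw [sum_pow_vw, ← pow_add, two_mul]
    norm_num
  have h2 : ((Finset.univ.filter (fun v : (Fin n → ZMod 2) × (Fin n → ZMod 2) =>
      vw v.1 + vw v.2 ≤ k)).card : ℝ) * (1 / 64) ^ k ≤ (65 / 64 : ℝ) ^ (2 * n) := by
    rw [← h1, ← nsmul_eq_mul, ← Finset.sum_const]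
    refine le_trans (Finset.sum_le_sum ?_) (Finset.sum_le_sum_of_subset_of_nonneg
      (Finset.filter_subset _ _) (fun _ _ _ => by positivity))
    intro v hv
    exact pow_le_pow_of_le_one (by norm_num) (by norm_num) (Finset.mem_filter.1 hv).2
  have h3 : (64 : ℝ) ^ k * (1 / 64) ^ k = 1 := by
    rw [← mul_pow]; norm_num
  calc ((Finset.univ.filter (fun v : (Fin n → ZMod 2) × (Fin n → ZMod 2) =>
      vw v.1 + vw v.2 ≤ k)).card : ℝ)
      = ((Finset.univ.filter (fun v : (Fin n → ZMod 2) × (Fin n → ZMod 2) =>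
      vw v.1 + vw v.2 ≤ k)).card : ℝ) * (1 / 64) ^ k * 64 ^ k := by
        rw [mul_assoc, mul_comm ((1 / 64 : ℝ) ^ k), h3, mul_one]
    _ ≤ _ := mul_le_mul_of_nonneg_right h2 (by positivity)


open Classical in
/-- Pairs of words of period `2^t` and small total weight. -/
noncomputable def low (s t : ℕ) : Finset (R (2 ^ s) × R (2 ^ s)) :=
  Finset.univ.filter (fun c => (Y (2 ^ s)) ^ (2 ^ t) * c.1 = 0 ∧ (Y (2 ^ s)) ^ (2 ^ t) * c.2 = 0 ∧
    32 * (wt c.1 + wt c.2) < 2 ^ s)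

theorem card_low_le {s t : ℕ} (ht : 5 ≤ t) (hts : t ≤ s) :
    ((low s t).card : ℝ) ≤ (65 / 64 : ℝ) ^ (2 * 2 ^ t) * 64 ^ (2 ^ (t - 5) - 1) := by
  classical
  refine le_trans ?_ (card_low (2 ^ t) (2 ^ (t - 5) - 1))
  rw [Nat.cast_le]
  apply Finset.card_le_card_of_injOn (fun c => (per t c.1, per t c.2))
  · rintro ⟨c1, c2⟩ hc
    simp only [low, Finset.coe_filter, Finset.mem_univ, true_and, Set.mem_ofPred_eq] at hc ⊢
    obtain ⟨h1, h2, h3⟩ := hc
    have e1 := vw_per_le hts h1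
    have e2 := vw_per_le hts h2
    have hpow : 2 ^ s = 2 ^ (s - t) * (32 * 2 ^ (t - 5)) := by
      have : (32 : ℕ) = 2 ^ 5 := by norm_num
      rw [this, ← pow_add, ← pow_add]
      congr 1
      omega
    have e3 : 2 ^ (s - t) * (32 * (vw (per t c1) + vw (per t c2))) <
        2 ^ (s - t) * (32 * 2 ^ (t - 5)) := by
      rw [← hpow]
      refine lt_of_le_of_lt ?_ h3
      calc 2 ^ (s - t) * (32 * (vw (per t c1) + vw (per t c2)))
          = 32 * (2 ^ (s - t) * vw (per t c1) + 2 ^ (s - t) * vw (per t c2)) := by ring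
        _ ≤ _ := Nat.mul_le_mul_left _ (Nat.add_le_add e1 e2)
    have e4 := lt_of_mul_lt_mul_left e3 (Nat.zero_le _)
    omega
  · rintro ⟨c1, c2⟩ hc ⟨c1', c2'⟩ hc' heq
    simp only [low, Finset.coe_filter, Finset.mem_univ, true_and, Set.mem_ofPred_eq] at hc hc'
    simp only [Prod.mk.injEq] at heq ⊢
    exact ⟨per_injective hc.1 hc'.1 heq.1, per_injective hc.2.1 hc'.2.1 heq.2⟩

open Classical in
theorem card_aug (s : ℕ) :
    2 ^ (2 ^ s) ≤ 2 * (Finset.univ.filter (fun b : R (2 ^ s) => aug (2 ^ s) b = 1)).card := by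
  have h1 : (Finset.univ.filter (fun b : R (2 ^ s) => ¬ aug (2 ^ s) b = 1)).card ≤
      (Finset.univ.filter (fun b : R (2 ^ s) => aug (2 ^ s) b = 1)).card := by
    apply Finset.card_le_card_of_injOn (fun b => b + 1)
    · intro b hb
      simp only [Finset.coe_filter, Finset.mem_univ, true_and, Set.mem_ofPred_eq] at hb ⊢
      rw [map_add, map_one]
      have : ∀ x : ZMod 2, ¬ x = 1 → x + 1 = 1 := by decide
      exact this _ hb
    · intro b _ b' _ h
      exact add_right_cancel h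
  have h2 := Finset.card_filter_add_card_filter_not (s := (Finset.univ : Finset (R (2 ^ s))))
    (fun b : R (2 ^ s) => aug (2 ^ s) b = 1)
  rw [Finset.card_univ, card_R] at h2
  omega

/-- Every word with few non-zero coordinates has a large period. -/
theorem exists_level {s : ℕ} {r a : R (2 ^ s)} (hr : r ≠ 0) (ha : aug (2 ^ s) a = 1)
    (hlow : 32 * (wt (r * bar (2 ^ s) a) + wt (r * a)) < 2 ^ s) :
    ∃ t, 6 ≤ t ∧ t ≤ s ∧ (Y (2 ^ s)) ^ (2 ^ t) * r = 0 ∧ (Y (2 ^ s)) ^ (2 ^ (t - 1)) * r ≠ 0 := by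
  classical
  have hex : ∃ t, (Y (2 ^ s)) ^ (2 ^ t) * r = 0 := ⟨s, by rw [Y_pow_self, zero_mul]⟩
  have h6 : 6 ≤ Nat.find hex := by
    by_contra hlt
    rw [not_le] at hlt
    have hle : Nat.find hex ≤ 5 := by omega
    have hs : Nat.find hex ≤ s := Nat.find_le (by rw [Y_pow_self, zero_mul])
    have h1 : (Y (2 ^ s)) ^ (2 ^ Nat.find hex) * (r * a) = 0 := by
      rw [← mul_assoc, Nat.find_spec hex, zero_mul]
    have hne : r * a ≠ 0 := by
      intro h
      exact hr ((isUnit_of_aug ha).mul_left_eq_zero.mp h)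
    have h2 : per (Nat.find hex) (r * a) ≠ 0 := by
      intro h0
      apply hne
      apply per_injective h1 (mul_zero _)
      rw [h0]
      funext j
      simp [per]
    have h3 := vw_per_le hs h1
    have h4 := vw_pos h2
    have h5 : 2 ^ (s - Nat.find hex) ≤ wt (r * a) := by
      calc 2 ^ (s - Nat.find hex) = 2 ^ (s - Nat.find hex) * 1 := (mul_one _).symm
        _ ≤ 2 ^ (s - Nat.find hex) * vw (per (Nat.find hex) (r * a)) := Nat.mul_le_mul_left _ h4
        _ ≤ _ := h3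
    have h6 : 2 ^ s ≤ 32 * 2 ^ (s - Nat.find hex) := by
      have : (32 : ℕ) = 2 ^ 5 := by norm_num
      rw [this, ← pow_add]
      exact Nat.pow_le_pow_right (by norm_num) (by omega)
    omega
  exact ⟨Nat.find hex, h6, Nat.find_le (by rw [Y_pow_self, zero_mul]), Nat.find_spec hex,
    Nat.find_min hex (by omega)⟩

theorem term_le {s t : ℕ} (ht : 6 ≤ t) (hts : t ≤ s) (A B : ℕ)
    (hA : (A : ℝ) ≤ (65 / 64 : ℝ) ^ (2 * 2 ^ t) * 64 ^ (2 ^ (t - 5) - 1))
    (hB : B * 2 ^ (2 ^ (t - 2)) ≤ 2 ^ (2 ^ s)) :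
    (A : ℝ) * B ≤ 2 ^ (2 ^ s) / 64 * (1 / 2) ^ (t - 5) := by
  obtain ⟨j, rfl⟩ : ∃ j, t = j + 5 := ⟨t - 5, by omega⟩
  have hj : 1 ≤ j := by omega
  rw [Nat.add_sub_cancel] at hA ⊢
  set u : ℕ := 2 ^ j with hu
  have hu1 : 1 ≤ u := Nat.one_le_two_pow
  have e1 : 2 * 2 ^ (j + 5) = 64 * u := by rw [hu, pow_add]; ring
  have e2 : 2 ^ (j + 5 - 2) = 8 * u := by
    rw [hu, show j + 5 - 2 = j + 3 by omega, pow_add]; ring
  rw [e1] at hA
  rw [e2] at hB
  have hB' : (B : ℝ) * 2 ^ (8 * u) ≤ 2 ^ (2 ^ s) := by exact_mod_cast hB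
  have h64 : (64 : ℝ) ^ (u - 1) * 64 = 64 ^ u := by
    rw [← pow_succ, Nat.sub_add_cancel hu1]
  have h65 : (65 / 64 : ℝ) ^ (64 * u) ≤ (11 / 4) ^ u := by
    rw [pow_mul]
    exact pow_le_pow_left₀ (by positivity) (by norm_num) _
  have hA' : (A : ℝ) * 64 ≤ (11 / 4) ^ u * 64 ^ u := by
    rw [← h64, ← mul_assoc]
    exact mul_le_mul_of_nonneg_right (hA.trans (mul_le_mul_of_nonneg_right h65 (by positivity)))
      (by norm_num)
  have h11 : (11 / 4 : ℝ) ^ u * 64 ^ u = (11 / 16) ^ u * 2 ^ (8 * u) := by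
    rw [pow_mul, ← mul_pow, ← mul_pow]
    norm_num
  have h16 : (11 / 16 : ℝ) ^ u ≤ (1 / 2) ^ j := by
    have hju : 2 * j ≤ u := by
      rw [hu]
      clear_value u
      clear hu hu1 e1 e2 hB hB' h64 h65 hA' h11 hA
      induction j with
      | zero => omega
      | succ k ih =>
        rcases Nat.eq_zero_or_pos k with rfl | hk
        · norm_num
        · have := ih (by omega) (by omega) (by omega)
          rw [pow_succ]
          omega
    calc (11 / 16 : ℝ) ^ u ≤ (11 / 16) ^ (2 * j) :=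
          pow_le_pow_of_le_one (by norm_num) (by norm_num) hju
      _ = ((11 / 16) ^ 2) ^ j := pow_mul _ _ _
      _ ≤ _ := pow_le_pow_left₀ (by norm_num) (by norm_num) _
  have hpos : (0 : ℝ) < 2 ^ (8 * u) := by positivity
  have h1 : (A : ℝ) * B * (64 * 2 ^ (8 * u)) ≤
      (2 ^ (2 ^ s) / 64 * (1 / 2) ^ j) * (64 * 2 ^ (8 * u)) := by
    calc (A : ℝ) * B * (64 * 2 ^ (8 * u)) = (A * 64) * (B * 2 ^ (8 * u)) := by ring
      _ ≤ ((11 / 4) ^ u * 64 ^ u) * 2 ^ (2 ^ s) :=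
          mul_le_mul hA' hB' (by positivity) (by positivity)
      _ = (11 / 16) ^ u * 2 ^ (8 * u) * 2 ^ (2 ^ s) := by rw [h11]
      _ ≤ (1 / 2) ^ j * 2 ^ (8 * u) * 2 ^ (2 ^ s) := by
          gcongr
      _ = _ := by ring
  exact le_of_mul_le_mul_right h1 (by positivity)

open Classical in
/-- There is a unit for which all non-zero words of the code have large weight. -/
theorem exists_good (s : ℕ) : ∃ a : R (2 ^ s), aug (2 ^ s) a = 1 ∧
    ∀ r : R (2 ^ s), r ≠ 0 → 2 ^ s ≤ 32 * (wt (r * bar (2 ^ s) a) + wt (r * a)) := by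
  by_contra hcon
  push Not at hcon
  set U := (Finset.univ.filter (fun b : R (2 ^ s) => aug (2 ^ s) b = 1)) with hU
  set S : ℕ → R (2 ^ s) × R (2 ^ s) → Finset (R (2 ^ s)) := fun t c =>
    Finset.univ.filter (fun b : R (2 ^ s) => aug (2 ^ s) b = 1 ∧
      ∃ r : R (2 ^ s), (Y (2 ^ s)) ^ (2 * 2 ^ (t - 2)) * r ≠ 0 ∧
        c = (r * bar (2 ^ s) b, r * b)) with hS
  have hcov : U ⊆ (Finset.Icc 6 s).biUnion (fun t => (low s t).biUnion (fun c => S t c)) := by
    intro b hb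
    have hb1 := (Finset.mem_filter.1 hb).2
    obtain ⟨r, hr, hlow⟩ := hcon b hb1
    obtain ⟨t, ht6, hts, hk, hnk⟩ := exists_level hr hb1 hlow
    refine Finset.mem_biUnion.2 ⟨t, Finset.mem_Icc.2 ⟨ht6, hts⟩, Finset.mem_biUnion.2
      ⟨(r * bar (2 ^ s) b, r * b), ?_, ?_⟩⟩
    · refine Finset.mem_filter.2 ⟨Finset.mem_univ _, ?_, ?_, hlow⟩
      · simp only
        rw [← mul_assoc, hk, zero_mul]
      · simp only
        rw [← mul_assoc, hk, zero_mul]
    · refine Finset.mem_filter.2 ⟨Finset.mem_univ _, hb1, r, ?_, rfl⟩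
      have : 2 * 2 ^ (t - 2) = 2 ^ (t - 1) := by
        rw [← pow_succ']
        congr 1
        omega
      rw [this]
      exact hnk
  have h1 : (U.card : ℝ) ≤ ∑ t ∈ Finset.Icc 6 s, (2 : ℝ) ^ (2 ^ s) / 64 * (1 / 2) ^ (t - 5) := by
    have h2 : U.card ≤ ∑ t ∈ Finset.Icc 6 s, ∑ c ∈ low s t, (S t c).card :=
      (Finset.card_le_card hcov).trans (Finset.card_biUnion_le.trans
        (Finset.sum_le_sum (fun t _ => Finset.card_biUnion_le)))
    have h3 : (U.card : ℝ) ≤ ∑ t ∈ Finset.Icc 6 s, ∑ c ∈ low s t, ((S t c).card : ℝ) := by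
      exact_mod_cast h2
    refine h3.trans (Finset.sum_le_sum ?_)
    intro t ht
    obtain ⟨ht6, hts⟩ := Finset.mem_Icc.1 ht
    -- the largest of the sets
    set B : ℕ := (low s t).sup (fun c => (S t c).card) with hB
    have hBle : B * 2 ^ (2 ^ (t - 2)) ≤ 2 ^ (2 ^ s) := by
      rcases (low s t).eq_empty_or_nonempty with he | hne
      · rw [hB, he]
        simp
      · obtain ⟨c, _, hc⟩ := Finset.exists_mem_eq_sup (low s t) hne (fun c => (S t c).card)
        rw [hB, hc]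
        exact card_units c
    calc ∑ c ∈ low s t, ((S t c).card : ℝ) ≤ ∑ c ∈ low s t, (B : ℝ) := by
          refine Finset.sum_le_sum ?_
          intro c hc
          exact_mod_cast Finset.le_sup (f := fun c => (S t c).card) hc
      _ = ((low s t).card : ℝ) * B := by rw [Finset.sum_const, nsmul_eq_mul]
      _ ≤ _ := term_le ht6 hts _ _ (card_low_le (by omega) hts) hBle
  have h4 : ∑ t ∈ Finset.Icc 6 s, (2 : ℝ) ^ (2 ^ s) / 64 * (1 / 2) ^ (t - 5) ≤
      (2 : ℝ) ^ (2 ^ s) / 64 := by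
    rw [← Finset.mul_sum]
    have h5 : ∑ t ∈ Finset.Icc 6 s, (1 / 2 : ℝ) ^ (t - 5) ≤ 1 := by
      have h6 : ∀ n : ℕ, ∑ t ∈ Finset.Icc 6 (n + 5), (1 / 2 : ℝ) ^ (t - 5) = 1 - (1 / 2) ^ n := by
        intro n
        induction n with
        | zero => simp
        | succ n ih =>
          rw [show n + 1 + 5 = n + 5 + 1 by ring, Finset.sum_Icc_succ_top (by omega), ih,
            show n + 5 + 1 - 5 = n + 1 by omega, pow_succ]
          ring
      rcases Nat.lt_or_ge s 5 with hs | hs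
      · rw [Finset.Icc_eq_empty (by omega)]
        simp
      · obtain ⟨n, rfl⟩ : ∃ n, s = n + 5 := ⟨s - 5, by omega⟩
        rw [h6]
        have : (0 : ℝ) ≤ (1 / 2) ^ n := by positivity
        linarith
    calc (2 : ℝ) ^ (2 ^ s) / 64 * ∑ t ∈ Finset.Icc 6 s, (1 / 2 : ℝ) ^ (t - 5)
        ≤ (2 : ℝ) ^ (2 ^ s) / 64 * 1 := mul_le_mul_of_nonneg_left h5 (by positivity)
      _ = _ := mul_one _
  have h7 : (2 : ℝ) ^ (2 ^ s) ≤ 2 * (U.card : ℝ) := by exact_mod_cast card_aug s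
  have hpos : (0 : ℝ) < 2 ^ (2 ^ s) := by positivity
  linarith

end Pool.Agent.Lib.MP_0430e4_lc.Dihedral
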