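import Pool.Agent.Lib.MP_0430e4_lc.Dih.Count

namespace Pool.Agent.Lib.MP_0430e4_lc.Dihedral

open AddMonoidAlgebra
open scoped commutatorElement

variable {N : ℕ}

/-- The encoding map of the code attached to `a`. -/
noncomputable def enc (N : ℕ) (a : R N) : R N →ₗ[ZMod 2] (DihedralGroup N → ZMod 2) where
  toFun r x := match x with
    | DihedralGroup.r i => (r * bar N a).coeff i
    | DihedralGroup.sr i => (r * a).coeff (-i)
  map_add' u v := by
    funext x
    rcases x with i | i
    · simp [add_mul]
    · simp [add_mul]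
  map_smul' c u := by
    funext x
    rcases x with i | i
    · simp
    · simp

theorem enc_r (a r : R N) (i : ZMod N) : enc N a r (DihedralGroup.r i) = (r * bar N a).coeff i := rfl

theorem enc_sr (a r : R N) (i : ZMod N) : enc N a r (DihedralGroup.sr i) = (r * a).coeff (-i) := rfl

theorem enc_injective {s : ℕ} {a : R (2 ^ s)} (ha : aug (2 ^ s) a = 1) :
    Function.Injective (enc (2 ^ s) a) := by
  rw [injective_iff_map_eq_zero]
  intro r hr
  have h1 : r * a = 0 := by
    apply coeff_injective
    ext i
    have := congrFun hr (DihedralGroup.sr (-i))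
    rw [enc_sr, neg_neg] at this
    simpa using this
  exact (isUnit_of_aug ha).mul_left_eq_zero.mp h1

theorem coeff_single_mul' (j i : ZMod N) (a : R N) : (single (-j) 1 * a).coeff i = a.coeff (j + i) := by
  rw [coeff_single_mul_apply]
  simp

theorem enc_smul_r (a r : R N) (j : ZMod N) :
    (fun x => enc N a r (DihedralGroup.r j * x)) = enc N a (single (-j) 1 * r) := by
  funext x
  rcases x with i | i
  · rw [DihedralGroup.r_mul_r, enc_r, enc_r, mul_assoc, coeff_single_mul']
  · rw [DihedralGroup.r_mul_sr, enc_sr, enc_sr, mul_assoc, coeff_single_mul']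
    congr 1
    ring

theorem enc_smul_sr (a r : R N) (j : ZMod N) :
    (fun x => enc N a r (DihedralGroup.sr j * x)) = enc N a (single (-j) 1 * bar N r) := by
  funext x
  rcases x with i | i
  · rw [DihedralGroup.sr_mul_r, enc_sr, enc_r, mul_assoc, coeff_single_mul', ← map_mul, coeff_bar]
  · rw [DihedralGroup.sr_mul_sr, enc_r, enc_sr, mul_assoc, coeff_single_mul']
    have h : bar N r * a = bar N (r * bar N a) := by rw [map_mul, bar_bar]
    rw [h, coeff_bar]
    congr 1
    ring

theorem coeff_mul_bar [NeZero N] (u v : R N) :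
    (u * bar N v).coeff 0 = ∑ i, u.coeff i * v.coeff i := by
  classical
  rw [coeff_mul_antidiag u (bar N v) 0 (Finset.univ.image (fun i : ZMod N => (i, -i)))]
  · rw [Finset.sum_image]
    · refine Finset.sum_congr rfl ?_
      intro i _
      simp only
      rw [coeff_bar, neg_neg]
    · intro i _ j _ h
      exact (Prod.mk.inj h).1
  · rintro ⟨i, j⟩
    simp only [Finset.mem_image, Finset.mem_univ, true_and, Prod.mk.injEq]
    constructor
    · rintro ⟨k, rfl, rfl⟩
      exact add_neg_cancel _
    · intro h
      exact ⟨i, rfl, (eq_neg_of_add_eq_zero_right h).symm⟩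

theorem sum_dihedral [NeZero N] {β : Type*} [AddCommMonoid β] (f : DihedralGroup N → β) :
    ∑ x, f x = ∑ i, f (DihedralGroup.r i) + ∑ i, f (DihedralGroup.sr i) := by
  rw [← Equiv.sum_comp DihedralGroup.equivSum.symm f, Fintype.sum_sum_type]
  rfl

theorem enc_orthogonal [NeZero N] (a r r' : R N) : ∑ x, enc N a r x * enc N a r' x = 0 := by
  rw [sum_dihedral]
  simp only [enc_r, enc_sr]
  have h1 : ∑ i : ZMod N, (r * a).coeff (-i) * (r' * a).coeff (-i) =
      ∑ i : ZMod N, (r * a).coeff i * (r' * a).coeff i :=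
    Equiv.sum_comp (Equiv.neg (ZMod N)) (fun i => (r * a).coeff i * (r' * a).coeff i)
  rw [h1, ← coeff_mul_bar, ← coeff_mul_bar, ← Finsupp.add_apply, ← coeff_add]
  have h2 : r * bar N a * bar N (r' * bar N a) + r * a * bar N (r' * a) = 0 := by
    have : r * bar N a * bar N (r' * bar N a) = r * a * bar N (r' * a) := by
      rw [map_mul, map_mul, bar_bar]; ring
    rw [this, two_eq_zero]
  rw [h2]
  rfl

theorem weight_enc [NeZero N] (a r : R N) :
    Nat.card {x // enc N a r x ≠ 0} = wt (r * bar N a) + wt (r * a) := by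
  classical
  rw [Nat.card_eq_fintype_card, Fintype.card_subtype, wt, wt]
  simp only [Finset.card_filter]
  rw [sum_dihedral]
  congr 1
  have := Equiv.sum_comp (Equiv.neg (ZMod N)) (fun i => if (r * a).coeff i ≠ 0 then 1 else 0)
  simp only [Equiv.neg_apply] at this
  simp only [enc_sr]
  exact this

theorem finrank_R (N : ℕ) [NeZero N] : Module.finrank (ZMod 2) (R N) = N := by
  have h := Module.card_eq_pow_finrank (K := ZMod 2) (V := R N)
  rw [card_R, ZMod.card] at h
  exact (Nat.pow_right_injective le_rfl h).symm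

/-- The index of the commutator subgroup. -/
theorem card_orbits (n : ℕ) (hn : 2 ∣ n) [NeZero n] :
    Nat.card (MulAction.orbitRel.Quotient (commutator (DihedralGroup n)) (DihedralGroup n)) = 4 := by
  have h1 : Nat.card (MulAction.orbitRel.Quotient (commutator (DihedralGroup n)) (DihedralGroup n)) =
      (commutator (DihedralGroup n)).index := by
    rw [Subgroup.index]
    exact Nat.card_congr (QuotientGroup.quotientRightRelEquivQuotientLeftRel _)
  rw [h1]
  let e : ZMod n →+* ZMod 2 := ZMod.castHom hn (ZMod 2)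
  let ψ : DihedralGroup n →* Multiplicative (ZMod 2) × Multiplicative (ZMod 2) :=
    { toFun := fun x => match x with
        | DihedralGroup.r i => (Multiplicative.ofAdd (e i), Multiplicative.ofAdd 0)
        | DihedralGroup.sr i => (Multiplicative.ofAdd (e i), Multiplicative.ofAdd 1)
      map_one' := by
        rw [DihedralGroup.one_def]
        simp
      map_mul' := by
        have key : ∀ u v : ZMod 2, u - v = v + u := by decide
        have k3 : (1 : ZMod 2) + 1 = 0 := by decide
        rintro (i | i) (j | j)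
        · rw [DihedralGroup.r_mul_r]
          simp [← ofAdd_add]
        · rw [DihedralGroup.r_mul_sr]
          simp [← ofAdd_add, key]
        · rw [DihedralGroup.sr_mul_r]
          simp [← ofAdd_add]
        · rw [DihedralGroup.sr_mul_sr]
          simp [← ofAdd_add, key, k3] }
  have hker : ψ.ker = commutator (DihedralGroup n) := by
    apply le_antisymm
    · rintro (i | i) hx
      · rw [MonoidHom.mem_ker] at hx
        have h2 : e i = 0 := by
          have := congrArg Prod.fst hx
          simpa [ψ] using this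
        have h3 : ((i.val : ℕ) : ZMod 2) = 0 := by
          rw [← h2]
          conv_rhs => rw [← ZMod.natCast_zmod_val i]
          rw [map_natCast]
        rw [ZMod.natCast_eq_zero_iff] at h3
        obtain ⟨k, hk⟩ := h3
        have h4 : DihedralGroup.r i =
            ⁅(DihedralGroup.r ((k : ℕ) : ZMod n) : DihedralGroup n), DihedralGroup.sr 0⁆ := by
          rw [commutatorElement_def, DihedralGroup.inv_r, DihedralGroup.inv_sr,
            DihedralGroup.r_mul_sr, DihedralGroup.sr_mul_r, DihedralGroup.sr_mul_sr]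
          congr 1
          conv_lhs => rw [← ZMod.natCast_zmod_val i, hk]
          push_cast
          ring
        rw [h4]
        exact Subgroup.commutator_mem_commutator (Subgroup.mem_top _) (Subgroup.mem_top _)
      · rw [MonoidHom.mem_ker] at hx
        have := congrArg Prod.snd hx
        simp [ψ] at this
    · exact Abelianization.commutator_subset_ker ψ
  rw [← hker, Subgroup.index_ker]
  have hsurj : ψ.range = ⊤ := by
    rw [MonoidHom.range_eq_top]
    rintro ⟨u, v⟩
    obtain ⟨i, hi⟩ : ∃ i : ZMod n, e i = Multiplicative.toAdd u :=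
      ZMod.castHom_surjective hn (Multiplicative.toAdd u)
    have hv : Multiplicative.toAdd v = 0 ∨ Multiplicative.toAdd v = 1 := by
      have : ∀ c : ZMod 2, c = 0 ∨ c = 1 := by decide
      exact this _
    rcases hv with hv | hv
    · refine ⟨DihedralGroup.r i, ?_⟩
      change (Multiplicative.ofAdd (e i), Multiplicative.ofAdd 0) = (u, v)
      rw [hi, ← hv]
      rfl
    · refine ⟨DihedralGroup.sr i, ?_⟩
      change (Multiplicative.ofAdd (e i), Multiplicative.ofAdd 1) = (u, v)
      rw [hi, ← hv]
      rfl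
  rw [hsurj, Nat.card_congr (Subgroup.topEquiv.toEquiv), Nat.card_prod, Nat.card_congr Multiplicative.toAdd,
    Nat.card_zmod]


/-- Good self-dual codes with a regular dihedral group of automorphisms. -/
theorem dihedral_codes (s : ℕ) (hs : 1 ≤ s) :
    IsPGroup 2 (DihedralGroup (2 ^ s)) ∧ Nat.card (DihedralGroup (2 ^ s)) = 2 ^ (s + 1) ∧
    Nat.card (MulAction.orbitRel.Quotient (commutator (DihedralGroup (2 ^ s)))
      (DihedralGroup (2 ^ s))) = 4 ∧
    ∃ C : Submodule (ZMod 2) (DihedralGroup (2 ^ s) → ZMod 2),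
      (∀ g : DihedralGroup (2 ^ s), ∀ f ∈ C, (fun x => f (g • x)) ∈ C) ∧
      (∀ f ∈ C, ∀ f' ∈ C, ∑ x, f x * f' x = 0) ∧
      2 * Module.finrank (ZMod 2) C = Nat.card (DihedralGroup (2 ^ s)) ∧
      (∀ f ∈ C, f ≠ 0 → (1 / 64 : ℝ) * (Nat.card (DihedralGroup (2 ^ s)) : ℝ) ≤
        (Nat.card {x : DihedralGroup (2 ^ s) // f x ≠ 0} : ℝ)) := by
  have hcard : Nat.card (DihedralGroup (2 ^ s)) = 2 ^ (s + 1) := by
    rw [DihedralGroup.nat_card, pow_succ']
  obtain ⟨a, ha, hgood⟩ := exists_good s
  refine ⟨IsPGroup.of_card hcard, hcard, card_orbits _ (dvd_pow_self 2 (by omega)),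
    LinearMap.range (enc (2 ^ s) a), ?_, ?_, ?_, ?_⟩
  · rintro (j | j) f ⟨r, rfl⟩
    · exact ⟨_, (enc_smul_r a r j).symm⟩
    · exact ⟨_, (enc_smul_sr a r j).symm⟩
  · rintro f ⟨r, rfl⟩ f' ⟨r', rfl⟩
    exact enc_orthogonal a r r'
  · rw [LinearMap.finrank_range_of_inj (enc_injective ha), finrank_R, DihedralGroup.nat_card]
  · rintro f ⟨r, rfl⟩ hf
    have hr : r ≠ 0 := by
      rintro rfl
      exact hf (map_zero _)
    rw [weight_enc, DihedralGroup.nat_card]
    have h1 := hgood r hr
    have h2 : ((2 : ℝ) ^ s) ≤ 32 * (wt (r * bar (2 ^ s) a) + wt (r * a) : ℕ) := by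
      exact_mod_cast h1
    push_cast at h2 ⊢
    linarith

end Pool.Agent.Lib.MP_0430e4_lc.Dihedral
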